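import Mathlib

/-!
# A hole in the spectrum of minimal defining set sizes of a design

The fourteen planes of `AG(3,2)`, seen as a simple `2`-`(8,4,3)` design, have minimal defining
sets of sizes exactly `6` and `8`.
-/

open Finset

namespace Pool.Agent.Results.MP_13ec72_co.SpectrumHole

/-- `B` is the block set of a simple `t`-`(v,k,lam)` design on the point set `Fin v`: every block
has `k` points and every `t`-subset of points lies in exactly `lam` blocks. -/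
def IsDesign (t v k lam : ℕ) (B : Finset (Finset (Fin v))) : Prop :=
  (∀ b ∈ B, b.card = k) ∧
    ∀ s : Finset (Fin v), s.card = t → (B.filter (fun b => s ⊆ b)).card = lam

/-- `S` is a defining set of the design with block set `B`: `S ⊆ B` and `B` is the only
`t`-`(v,k,lam)` design on the same points whose block set contains `S`. -/
def IsDefiningSet (t v k lam : ℕ) (B S : Finset (Finset (Fin v))) : Prop :=
  S ⊆ B ∧ ∀ B' : Finset (Finset (Fin v)), IsDesign t v k lam B' → S ⊆ B' → B' = B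

/-- `S` is a minimal defining set: no proper subset of `S` is a defining set. -/
def IsMinimalDefiningSet (t v k lam : ℕ) (B S : Finset (Finset (Fin v))) : Prop :=
  IsDefiningSet t v k lam B S ∧
    ∀ S' : Finset (Finset (Fin v)), S' ⊂ S → ¬ IsDefiningSet t v k lam B S'

/-- The set of sizes of minimal defining sets. -/
def spectrum (t v k lam : ℕ) (B : Finset (Finset (Fin v))) : Set ℕ :=
  {n | ∃ S : Finset (Finset (Fin v)), IsMinimalDefiningSet t v k lam B S ∧ S.card = n}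

/-- A set of natural numbers has a hole: it misses a number strictly between two members. -/
def HasHole (A : Set ℕ) : Prop :=
  ∃ a m b : ℕ, a ∈ A ∧ b ∈ A ∧ a < m ∧ m < b ∧ m ∉ A

/-! ### Numeric encoding -/

/-- The subset of `Fin n` with characteristic bits `m`. -/
def toF (n m : ℕ) : Finset (Fin n) := Finset.univ.filter (fun i => m.testBit i = true)

theorem mem_toF {n m : ℕ} {i : Fin n} : i ∈ toF n m ↔ m.testBit i = true := by
  simp [toF]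

theorem toF_inj {n m m' : ℕ} (hm : m < 2 ^ n) (hm' : m' < 2 ^ n) (h : toF n m = toF n m') :
    m = m' := by
  apply Nat.eq_of_testBit_eq
  intro i
  by_cases hi : i < n
  · have h1 : (⟨i, hi⟩ : Fin n) ∈ toF n m ↔ (⟨i, hi⟩ : Fin n) ∈ toF n m' := by rw [h]
    rw [mem_toF, mem_toF] at h1
    exact Bool.eq_iff_iff.2 h1
  · have hle : 2 ^ n ≤ 2 ^ i := Nat.pow_le_pow_right (by norm_num) (not_lt.1 hi)
    rw [Nat.testBit_lt_two_pow (lt_of_lt_of_le hm hle),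
      Nat.testBit_lt_two_pow (lt_of_lt_of_le hm' hle)]

theorem toF_surj {n : ℕ} (s : Finset (Fin n)) : ∃ m < 2 ^ n, toF n m = s := by
  have hinj : Function.Injective (fun m : Fin (2 ^ n) => toF n m) := by
    intro a b hab
    exact Fin.ext (toF_inj a.2 b.2 hab)
  have hb := (Fintype.bijective_iff_injective_and_card _).2 ⟨hinj, by simp⟩
  obtain ⟨m, hm⟩ := hb.2 s
  exact ⟨m, m.2, hm⟩

/-- Masks of the fourteen planes `{x : parity (a &&& x) = c}`. -/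
def planes : List ℕ := [85, 170, 51, 204, 153, 102, 15, 240, 165, 90, 195, 60, 105, 150]

/-- The mask of the plane with index `i`. -/
def pl (i : ℕ) : ℕ := planes.getD i 0

/-- The family of subsets of `Fin 8` with masks in `L`. -/
def mk (L : List ℕ) : Finset (Finset (Fin 8)) := (L.map (toF 8)).toFinset

theorem mem_mk {L : List ℕ} {b : Finset (Fin 8)} : b ∈ mk L ↔ ∃ m ∈ L, toF 8 m = b := by
  simp [mk]

/-- The sum of eight bits. -/
def pc8 (m : ℕ) : ℕ :=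
  (m.testBit 0).toNat + (m.testBit 1).toNat + (m.testBit 2).toNat + (m.testBit 3).toNat +
  (m.testBit 4).toNat + (m.testBit 5).toNat + (m.testBit 6).toNat + (m.testBit 7).toNat

/-- The sum of fourteen bits. -/
def pc14 (m : ℕ) : ℕ :=
  pc8 m + ((m.testBit 8).toNat + (m.testBit 9).toNat + (m.testBit 10).toNat +
  (m.testBit 11).toNat + (m.testBit 12).toNat + (m.testBit 13).toNat)

theorem ite_toNat (b : Bool) : (if b = true then 1 else 0) = b.toNat := by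
  cases b <;> rfl

theorem card_toF8 (m : ℕ) : (toF 8 m).card = pc8 m := by
  rw [toF, Finset.card_filter, Fin.sum_univ_eight]
  simp only [ite_toNat]
  rfl

theorem card_toF14 (m : ℕ) : (toF 14 m).card = pc14 m := by
  rw [toF, Finset.card_filter]
  simp only [ite_toNat, Fin.sum_univ_succ, Finset.univ_eq_empty, Finset.sum_empty]
  unfold pc14 pc8
  simp only [Fin.val_zero, Fin.val_succ, zero_add, add_zero, Nat.reduceAdd]
  ring

/-- Boolean test that the masks in `L` form a simple `2`-`(8,4,3)` design. -/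
def isDes (L : List ℕ) : Bool :=
  decide L.Nodup && L.all (fun m => Nat.blt m 256 && pc8 m == 4) &&
    (List.range 8).all (fun i => (List.range 8).all (fun j =>
      i == j || (L.filter (fun m => m.testBit i && m.testBit j)).length == 3))

theorem isDesign_of_isDes {L : List ℕ} (h : isDes L = true) : IsDesign 2 8 4 3 (mk L) := by
  unfold isDes at h
  rw [Bool.and_eq_true, Bool.and_eq_true, decide_eq_true_eq, List.all_eq_true,
    List.all_eq_true] at h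
  obtain ⟨⟨hnd, hall⟩, hpair⟩ := h
  have hlt : ∀ m ∈ L, m < 2 ^ 8 := by
    intro m hm
    have := hall m hm
    rw [Bool.and_eq_true] at this
    have h1 := this.1
    simp only [Nat.blt_eq] at h1
    simpa using h1
  have hpc : ∀ m ∈ L, pc8 m = 4 := by
    intro m hm
    have := hall m hm
    rw [Bool.and_eq_true] at this
    simpa using this.2
  refine ⟨?_, ?_⟩
  · intro b hb
    obtain ⟨m, hm, rfl⟩ := mem_mk.1 hb
    rw [card_toF8, hpc m hm]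
  · intro s hs
    obtain ⟨i, j, hij, rfl⟩ := Finset.card_eq_two.1 hs
    have h1 := hpair i.val (List.mem_range.2 i.2)
    rw [List.all_eq_true] at h1
    have h2 := h1 j.val (List.mem_range.2 j.2)
    have hne : (i.val == j.val) = false := by
      rw [beq_eq_false_iff_ne]
      exact fun h => hij (Fin.ext h)
    rw [hne, Bool.false_or, beq_iff_eq] at h2
    have hset : (mk L).filter (fun b => {i, j} ⊆ b) =
        mk (L.filter (fun m => m.testBit i && m.testBit j)) := by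
      ext b
      rw [Finset.mem_filter, mem_mk, mem_mk]
      constructor
      · rintro ⟨⟨m, hm, rfl⟩, hb⟩
        refine ⟨m, ?_, rfl⟩
        rw [List.mem_filter, Bool.and_eq_true]
        have hi : i ∈ toF 8 m := hb (by simp)
        have hj : j ∈ toF 8 m := hb (by simp)
        exact ⟨hm, mem_toF.1 hi, mem_toF.1 hj⟩
      · rintro ⟨m, hm, rfl⟩
        rw [List.mem_filter, Bool.and_eq_true] at hm
        refine ⟨⟨m, hm.1, rfl⟩, ?_⟩
        intro x hx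
        rw [Finset.mem_insert, Finset.mem_singleton] at hx
        rcases hx with rfl | rfl
        · exact mem_toF.2 hm.2.1
        · exact mem_toF.2 hm.2.2
    rw [hset, mk, List.toFinset_card_of_nodup, List.length_map]
    · exact h2
    · apply List.Nodup.map_on _ (hnd.filter _)
      intro x hx y hy hxy
      exact toF_inj (hlt x (List.mem_of_mem_filter hx)) (hlt y (List.mem_of_mem_filter hy)) hxy

/-- The block with index `i`. -/
def blk (i : Fin 14) : Finset (Fin 8) := toF 8 (pl i)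

/-- The subfamily of the planes with characteristic bits `c`. -/
def sub (c : ℕ) : Finset (Finset (Fin 8)) := (toF 14 c).image blk

/-- All fourteen planes. -/
def B0 : Finset (Finset (Fin 8)) := Finset.univ.image blk

theorem pl_lt : ∀ i : Fin 14, pl i < 2 ^ 8 := by decide

theorem pl_inj : ∀ i j : Fin 14, pl i = pl j → i = j := by decide

theorem blk_inj : Function.Injective blk := by
  intro i j h
  exact pl_inj i j (toF_inj (pl_lt i) (pl_lt j) h)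

theorem card_sub (c : ℕ) : (sub c).card = pc14 c := by
  rw [sub, Finset.card_image_of_injective _ blk_inj, card_toF14]

theorem mem_sub {c : ℕ} {i : Fin 14} : blk i ∈ sub c ↔ c.testBit i = true := by
  rw [sub, Finset.mem_image]
  constructor
  · rintro ⟨j, hj, hji⟩
    rw [← blk_inj hji]
    exact mem_toF.1 hj
  · intro h
    exact ⟨i, mem_toF.2 h, rfl⟩

theorem sub_subset_B0 (c : ℕ) : sub c ⊆ B0 :=
  Finset.image_subset_image (Finset.subset_univ _)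

theorem exists_code {S : Finset (Finset (Fin 8))} (hS : S ⊆ B0) :
    ∃ c < 2 ^ 14, sub c = S := by
  obtain ⟨c, hc, h⟩ := toF_surj (Finset.univ.filter (fun i : Fin 14 => blk i ∈ S))
  refine ⟨c, hc, ?_⟩
  ext b
  rw [sub, h, Finset.mem_image]
  constructor
  · rintro ⟨i, hi, rfl⟩
    exact (Finset.mem_filter.1 hi).2
  · intro hb
    obtain ⟨i, -, rfl⟩ := Finset.mem_image.1 (hS hb)
    exact ⟨i, Finset.mem_filter.2 ⟨Finset.mem_univ _, hb⟩, rfl⟩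

theorem B0_eq : B0 = mk planes := by
  ext b
  rw [mem_mk, B0, Finset.mem_image]
  constructor
  · rintro ⟨i, -, rfl⟩
    refine ⟨pl i, ?_, rfl⟩
    revert i
    decide
  · rintro ⟨m, hm, rfl⟩
    have : ∀ m ∈ planes, ∃ i : Fin 14, pl i = m := by decide
    obtain ⟨i, hi⟩ := this m hm
    exact ⟨i, Finset.mem_univ _, by rw [blk, hi]⟩

theorem B0_design : IsDesign 2 8 4 3 B0 := by
  rw [B0_eq]
  exact isDesign_of_isDes (by decide +kernel)

theorem sub_subset_sub {c d : ℕ} (h : c &&& d = c) : sub c ⊆ sub d := by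
  intro b hb
  obtain ⟨i, hi, rfl⟩ := Finset.mem_image.1 hb
  rw [mem_sub]
  have h1 := mem_toF.1 hi
  rw [← h, Nat.testBit_and, Bool.and_eq_true] at h1
  exact h1.2

/-! ### Trades -/

/-- The family obtained from the planes by replacing the part coded by `T` with the list `T'`. -/
def dlist (T : ℕ) (T' : List ℕ) : List ℕ :=
  ((List.range 14).filter (fun i => !T.testBit i)).map pl ++ T'

/-- Boolean test of a trade. -/
def okTrade (q : ℕ × List ℕ) : Bool :=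
  isDes (dlist q.1 q.2) && q.2.any (fun m => Nat.blt m 256 && !planes.contains m)

theorem not_defining {q : ℕ × List ℕ} (hq : okTrade q = true) {c : ℕ} (hc : c &&& q.1 = 0) :
    ¬ IsDefiningSet 2 8 4 3 B0 (sub c) := by
  rintro ⟨-, h⟩
  unfold okTrade at hq
  rw [Bool.and_eq_true, List.any_eq_true] at hq
  obtain ⟨h1, m, hm, hm2⟩ := hq
  rw [Bool.and_eq_true] at hm2
  have h2 := h (mk (dlist q.1 q.2)) (isDesign_of_isDes h1) (by
    intro b hb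
    obtain ⟨i, hi, rfl⟩ := Finset.mem_image.1 hb
    rw [mem_mk]
    refine ⟨pl i, ?_, rfl⟩
    rw [dlist, List.mem_append]
    left
    rw [List.mem_map]
    refine ⟨i.val, ?_, rfl⟩
    rw [List.mem_filter, List.mem_range]
    refine ⟨i.2, ?_⟩
    have h3 := mem_toF.1 hi
    have h4 : (c &&& q.1).testBit i = false := by rw [hc]; exact Nat.zero_testBit _
    rw [Nat.testBit_and, h3, Bool.true_and] at h4
    rw [h4]
    rfl)
  have h3 : toF 8 m ∈ B0 := by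
    rw [← h2, mem_mk]
    exact ⟨m, by rw [dlist, List.mem_append]; right; exact hm, rfl⟩
  rw [B0_eq, mem_mk] at h3
  obtain ⟨m', hm', h4⟩ := h3
  have hlt : ∀ m ∈ planes, m < 2 ^ 8 := by decide
  have hm3 : m < 2 ^ 8 := by
    have := hm2.1
    simp only [Nat.blt_eq] at this
    simpa using this
  have h5 := toF_inj (hlt m' hm') hm3 h4
  have h6 := hm2.2
  rw [← h5] at h6
  have h7 : planes.contains m' = true := by
    rw [List.contains_iff_mem]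
    exact hm'
  rw [h7] at h6
  exact absurd h6 (by decide)

/-! ### Weight certificates -/

/-- The list of pairs of points. -/
def pairs : List (ℕ × ℕ) := [(0, 1), (0, 2), (0, 3), (0, 4), (0, 5), (0, 6), (0, 7),
  (1, 2), (1, 3), (1, 4), (1, 5), (1, 6), (1, 7), (2, 3), (2, 4), (2, 5), (2, 6), (2, 7),
  (3, 4), (3, 5), (3, 6), (3, 7), (4, 5), (4, 6), (4, 7), (5, 6), (5, 7), (6, 7)]

/-- Total weight of the weighted pairs inside a set given by its indicator. -/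
def gw (l : List ((ℕ × ℕ) × ℕ)) (f : ℕ → Bool) : ℕ :=
  (l.map (fun q => bif f q.1.1 && f q.1.2 then q.2 else 0)).sum

/-- The indicator of a subset of `Fin 8`. -/
def ind (b : Finset (Fin 8)) (i : ℕ) : Bool := decide (∃ h : i < 8, (⟨i, h⟩ : Fin 8) ∈ b)

theorem ind_toF {m : ℕ} (hm : m < 2 ^ 8) : ind (toF 8 m) = m.testBit := by
  funext i
  unfold ind
  by_cases hi : i < 8
  · rw [Bool.eq_iff_iff, decide_eq_true_eq]
    constructor
    · rintro ⟨h, h1⟩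
      exact mem_toF.1 h1
    · intro h
      exact ⟨hi, mem_toF.2 h⟩
  · have hle : 2 ^ 8 ≤ 2 ^ i := Nat.pow_le_pow_right (by norm_num) (not_lt.1 hi)
    rw [Nat.testBit_lt_two_pow (lt_of_lt_of_le hm hle)]
    rw [decide_eq_false_iff_not]
    rintro ⟨h, -⟩
    exact hi h

theorem sum_gw {B : Finset (Finset (Fin 8))} (hB : IsDesign 2 8 4 3 B)
    (l : List ((ℕ × ℕ) × ℕ)) (hl : ∀ q ∈ l, q.1.1 < q.1.2 ∧ q.1.2 < 8) :
    ∑ b ∈ B, gw l (ind b) = 3 * (l.map Prod.snd).sum := by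
  induction l with
  | nil => simp [gw]
  | cons q l ih =>
    have hq := hl q (by simp)
    have ih' := ih (fun q hq => hl q (List.mem_cons_of_mem _ hq))
    have hstep : ∀ b : Finset (Fin 8), gw (q :: l) (ind b) =
        (bif ind b q.1.1 && ind b q.1.2 then q.2 else 0) + gw l (ind b) := by
      intro b
      simp [gw]
    simp only [hstep]
    rw [Finset.sum_add_distrib, ih', List.map_cons, List.sum_cons, mul_add]
    congr 1
    have h1 : q.1.1 < 8 := lt_trans hq.1 hq.2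
    have hcard : ({(⟨q.1.1, h1⟩ : Fin 8), ⟨q.1.2, hq.2⟩} : Finset (Fin 8)).card = 2 := by
      rw [Finset.card_pair]
      intro h
      have := congrArg Fin.val h
      simp only at this
      omega
    have h2 := hB.2 _ hcard
    have h3 : ∀ b : Finset (Fin 8), (bif ind b q.1.1 && ind b q.1.2 then q.2 else 0) =
        if ({(⟨q.1.1, h1⟩ : Fin 8), ⟨q.1.2, hq.2⟩} : Finset (Fin 8)) ⊆ b then q.2 else 0 := by
      intro b
      have h4 : (ind b q.1.1 && ind b q.1.2) = true ↔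
          ({(⟨q.1.1, h1⟩ : Fin 8), ⟨q.1.2, hq.2⟩} : Finset (Fin 8)) ⊆ b := by
        rw [Bool.and_eq_true]
        unfold ind
        rw [decide_eq_true_eq, decide_eq_true_eq, Finset.insert_subset_iff,
          Finset.singleton_subset_iff]
        constructor
        · rintro ⟨⟨_, h5⟩, ⟨_, h6⟩⟩
          exact ⟨h5, h6⟩
        · rintro ⟨h5, h6⟩
          exact ⟨⟨h1, h5⟩, ⟨hq.2, h6⟩⟩
      by_cases h5 : ({(⟨q.1.1, h1⟩ : Fin 8), ⟨q.1.2, hq.2⟩} : Finset (Fin 8)) ⊆ b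
      · rw [if_pos h5, h4.2 h5]
        rfl
      · rw [if_neg h5]
        have h6 : (ind b q.1.1 && ind b q.1.2) = false := by
          rw [Bool.eq_false_iff]
          exact fun h => h5 (h4.1 h)
        rw [h6]
        rfl
    simp only [h3]
    rw [← Finset.sum_filter, Finset.sum_const, h2, smul_eq_mul]

theorem pairs_ok : ∀ q ∈ pairs, q.1 < q.2 ∧ q.2 < 8 := by decide

theorem zip_ok (w : List ℕ) : ∀ q ∈ pairs.zip w, q.1.1 < q.1.2 ∧ q.1.2 < 8 := by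
  intro q hq
  have h : q.1 ∈ pairs := (List.of_mem_zip (a := q.1) (b := q.2) hq).1
  exact pairs_ok q.1 h

/-- Every `2`-`(8,4,3)` design has fourteen blocks (in the form needed below). -/
theorem card_eq {B B' : Finset (Finset (Fin 8))} (hB : IsDesign 2 8 4 3 B)
    (hB' : IsDesign 2 8 4 3 B') : B.card = B'.card := by
  have key : ∀ B : Finset (Finset (Fin 8)), IsDesign 2 8 4 3 B → 6 * B.card = 84 := by
    intro B hB
    have h1 := sum_gw hB (pairs.zip (List.replicate 28 1)) (zip_ok _)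
    have h2 : ∀ b ∈ B, gw (pairs.zip (List.replicate 28 1)) (ind b) = 6 := by
      intro b hb
      obtain ⟨m, hm, rfl⟩ := toF_surj b
      have h3 := hB.1 _ hb
      rw [card_toF8] at h3
      rw [ind_toF hm]
      have key : ∀ m < 256, pc8 m = 4 →
          gw (pairs.zip (List.replicate 28 1)) m.testBit = 6 := by decide +kernel
      exact key m (by simpa using hm) h3
    rw [Finset.sum_congr rfl h2, Finset.sum_const, smul_eq_mul] at h1
    have h4 : (List.map Prod.snd (pairs.zip (List.replicate 28 1))).sum = 28 := by decide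
    rw [h4] at h1
    omega
  have h1 := key B hB
  have h2 := key B' hB'
  omega

def trades : List (ℕ × List ℕ) := [
  (340, [27, 39, 141, 177]),
  (360, [39, 78, 141, 228]),
  (408, [141, 177, 216, 228]),
  (420, [39, 114, 177, 228]),
  (600, [27, 78, 141, 216]),
  (612, [27, 39, 78, 114]),
  (660, [27, 114, 177, 216]),
  (680, [78, 114, 216, 228]),
  (1105, [29, 71, 139, 209]),
  (1122, [46, 71, 139, 226]),
  (1170, [139, 184, 209, 226]),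
  (1185, [71, 116, 209, 226]),
  (1285, [53, 83, 163, 197]),
  (1290, [163, 172, 197, 202]),
  (1542, [58, 83, 163, 202]),
  (1545, [83, 92, 197, 202]),
  (2130, [29, 46, 139, 184]),
  (2145, [29, 46, 71, 116]),
  (2193, [29, 116, 184, 209]),
  (2210, [46, 116, 184, 226]),
  (2310, [53, 58, 163, 172]),
  (2313, [53, 92, 172, 197]),
  (2565, [53, 58, 83, 92]),
  (2570, [58, 92, 172, 202]),
  (4165, [23, 43, 77, 113]),
  (4170, [43, 77, 142, 232]),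
  (4230, [43, 113, 178, 232]),
  (4233, [77, 113, 212, 232]),
  (4369, [89, 101, 149, 169]),
  (4386, [101, 106, 166, 169]),
  (4626, [89, 106, 154, 169]),
  (4641, [86, 89, 101, 106]),
  (5140, [57, 99, 147, 201]),
  (5160, [99, 108, 198, 201]),
  (5440, [45, 75, 135, 225]),
  (5760, [75, 120, 210, 225]),
  (6168, [57, 108, 156, 201]),
  (6180, [54, 57, 99, 108]),
  (6528, [45, 120, 180, 225]),
  (6720, [30, 45, 75, 120]),
  (8262, [23, 43, 142, 178]),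
  (8265, [23, 77, 142, 212]),
  (8325, [23, 113, 178, 212]),
  (8330, [142, 178, 212, 232]),
  (8466, [149, 154, 166, 169]),
  (8481, [86, 101, 149, 166]),
  (8721, [86, 89, 149, 154]),
  (8738, [86, 106, 154, 166]),
  (9240, [147, 156, 198, 201]),
  (9252, [54, 99, 147, 198]),
  (9600, [135, 180, 210, 225]),
  (9792, [30, 75, 135, 210]),
  (10260, [54, 57, 147, 156]),
  (10280, [54, 108, 156, 198]),
  (10560, [30, 45, 135, 180]),
  (10880, [30, 120, 180, 210])]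

def certs : List (ℕ × ℕ × List ℕ) := [
  (207, 24, [7, 7, 5, 9, 3, 3, 0, 3, 7, 5, 5, 2, 5, 7, 5, 2, 5, 5, 0, 3, 3, 9, 7, 7, 1, 7, 7, 7]),
  (243, 24, [5, 7, 7, 9, 0, 3, 3, 7, 7, 0, 9, 3, 3, 3, 5, 5, 5, 2, 5, 5, 2, 5, 1, 7, 7, 7, 7, 7]),
  (252, 24, [7, 5, 7, 9, 3, 0, 3, 7, 3, 5, 5, 5, 2, 7, 0, 3, 9, 3, 5, 2, 5, 5, 7, 1, 7, 7, 7, 7]),
  (783, 24, [3, 7, 0, 7, 9, 5, 3, 2, 7, 5, 7, 3, 7, 5, 3, 5, 7, 5, 5, 1, 9, 7, 5, 7, 2, 0, 7, 3]),
  (819, 24, [0, 7, 3, 7, 3, 5, 9, 5, 7, 5, 7, 9, 1, 2, 3, 5, 7, 5, 5, 7, 3, 7, 2, 7, 5, 3, 7, 0]),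
  (828, 24, [5, 3, 3, 7, 7, 0, 9, 3, 3, 7, 7, 9, 0, 7, 2, 5, 7, 7, 5, 2, 7, 7, 3, 5, 5, 5, 5, 1]),
  (972, 24, [7, 7, 5, 3, 9, 0, 3, 3, 7, 5, 5, 5, 2, 7, 2, 5, 5, 5, 3, 0, 9, 3, 7, 7, 7, 1, 7, 7]),
  (1008, 24, [5, 7, 7, 3, 3, 0, 9, 7, 7, 3, 3, 9, 0, 3, 2, 5, 5, 5, 5, 2, 5, 5, 7, 7, 7, 7, 7, 1]),
  (3087, 24, [7, 3, 0, 7, 5, 9, 3, 2, 5, 3, 7, 5, 5, 7, 5, 3, 7, 7, 5, 9, 1, 7, 7, 5, 2, 0, 3, 7]),
  (3123, 24, [3, 5, 3, 7, 0, 7, 9, 3, 7, 2, 7, 5, 7, 3, 7, 9, 7, 0, 5, 7, 2, 7, 5, 3, 5, 5, 1, 5]),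
  (3132, 24, [7, 0, 3, 7, 5, 3, 9, 5, 2, 3, 7, 5, 5, 7, 5, 9, 7, 1, 5, 3, 7, 7, 7, 2, 5, 3, 0, 7]),
  (3267, 24, [7, 7, 5, 3, 0, 9, 3, 3, 7, 2, 5, 5, 5, 7, 5, 5, 5, 2, 3, 9, 0, 3, 7, 7, 7, 1, 7, 7]),
  (3312, 24, [7, 5, 7, 3, 0, 3, 9, 7, 3, 2, 5, 5, 5, 7, 3, 9, 3, 0, 5, 5, 2, 5, 7, 7, 7, 7, 1, 7]),
  (3843, 24, [3, 7, 0, 5, 3, 7, 9, 2, 7, 3, 7, 5, 7, 5, 7, 5, 3, 5, 9, 7, 5, 1, 3, 7, 0, 2, 7, 5]),
  (3852, 24, [7, 3, 0, 5, 7, 3, 9, 2, 5, 7, 3, 5, 5, 7, 3, 5, 7, 7, 9, 5, 7, 1, 7, 3, 0, 2, 5, 7]),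
  (4032, 24, [7, 7, 5, 0, 3, 3, 9, 3, 7, 5, 2, 5, 5, 7, 5, 5, 2, 5, 9, 3, 3, 0, 7, 7, 1, 7, 7, 7]),
  (12303, 24, [5, 3, 3, 7, 7, 9, 0, 3, 3, 7, 7, 0, 9, 7, 5, 2, 7, 7, 2, 5, 7, 7, 3, 5, 5, 5, 5, 1]),
  (12339, 24, [0, 3, 7, 7, 3, 9, 5, 7, 5, 5, 7, 1, 9, 2, 5, 7, 7, 3, 3, 5, 5, 7, 2, 5, 7, 7, 3, 0]),
  (12348, 24, [3, 0, 7, 7, 9, 3, 5, 7, 2, 5, 7, 7, 3, 5, 5, 1, 7, 9, 3, 5, 5, 7, 5, 2, 7, 7, 0, 3]),
  (12483, 24, [5, 7, 7, 3, 3, 9, 0, 7, 7, 3, 3, 0, 9, 3, 5, 2, 5, 5, 2, 5, 5, 5, 7, 7, 7, 7, 7, 1]),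
  (12492, 24, [7, 5, 7, 3, 9, 3, 0, 7, 3, 5, 5, 2, 5, 7, 3, 0, 3, 9, 2, 5, 5, 5, 7, 7, 7, 7, 1, 7]),
  (13059, 24, [0, 7, 3, 3, 7, 9, 5, 5, 7, 7, 5, 1, 9, 2, 5, 3, 5, 7, 7, 5, 7, 3, 2, 7, 3, 5, 7, 0]),
  (13104, 24, [0, 3, 7, 3, 7, 5, 9, 7, 5, 7, 5, 9, 1, 2, 7, 5, 3, 7, 5, 3, 7, 5, 2, 3, 7, 7, 5, 0]),
  (13248, 24, [5, 7, 7, 0, 9, 3, 3, 7, 7, 9, 0, 3, 3, 3, 5, 5, 2, 5, 5, 5, 5, 2, 1, 7, 7, 7, 7, 7]),
  (15372, 24, [7, 0, 3, 5, 7, 9, 3, 5, 2, 7, 3, 5, 5, 7, 9, 5, 1, 7, 3, 5, 7, 7, 7, 0, 3, 5, 2, 7]),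
  (15408, 24, [3, 0, 7, 3, 5, 7, 9, 7, 2, 7, 3, 5, 7, 5, 7, 9, 5, 1, 5, 7, 3, 5, 3, 2, 7, 7, 0, 5]),
  (15552, 24, [7, 5, 7, 0, 3, 9, 3, 7, 3, 5, 2, 5, 5, 7, 9, 3, 0, 3, 5, 5, 5, 2, 7, 1, 7, 7, 7, 7]),
  (16128, 24, [3, 3, 5, 0, 7, 7, 9, 7, 3, 7, 2, 5, 7, 3, 7, 5, 2, 7, 9, 7, 7, 0, 5, 5, 1, 3, 5, 5]),
  (1526, 126, [48, 36, 28, 16, 24, 14, 24, 50, 24, 0, 38, 22, 20, 24, 6, 26, 22, 14, 28, 18, 20, 24, 24, 32, 36, 22, 26, 22]),
  (1529, 126, [22, 26, 36, 24, 14, 20, 24, 22, 32, 20, 22, 22, 14, 24, 18, 26, 38, 24, 28, 6, 0, 16, 24, 24, 28, 50, 36, 48]),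
  (1781, 126, [48, 24, 50, 38, 0, 20, 22, 28, 36, 24, 16, 24, 14, 24, 18, 28, 24, 20, 26, 6, 14, 22, 24, 26, 22, 36, 32, 22]),
  (1786, 126, [22, 32, 22, 22, 20, 14, 22, 36, 26, 14, 24, 24, 20, 24, 6, 28, 16, 0, 26, 18, 24, 38, 24, 36, 50, 28, 24, 48]),
  (1886, 126, [48, 16, 24, 36, 28, 14, 24, 0, 38, 50, 24, 22, 20, 24, 6, 28, 32, 36, 26, 18, 22, 26, 24, 22, 14, 20, 24, 22]),
  (1901, 126, [48, 38, 0, 24, 50, 20, 22, 24, 16, 28, 36, 24, 14, 24, 18, 26, 26, 22, 28, 6, 36, 32, 24, 24, 20, 14, 22, 22]),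
  (1949, 126, [22, 24, 14, 26, 36, 20, 24, 20, 22, 22, 32, 22, 14, 24, 18, 28, 24, 28, 26, 6, 50, 36, 24, 38, 24, 0, 16, 48]),
  (1966, 126, [22, 22, 20, 32, 22, 14, 22, 14, 24, 36, 26, 24, 20, 24, 6, 26, 36, 50, 28, 18, 28, 24, 24, 16, 0, 24, 38, 48]),
  (2549, 126, [24, 26, 22, 38, 24, 18, 26, 36, 32, 0, 16, 28, 6, 22, 20, 24, 24, 14, 22, 14, 20, 22, 48, 24, 50, 28, 36, 24]),
  (2554, 126, [24, 36, 50, 22, 14, 6, 26, 28, 24, 20, 24, 28, 18, 48, 14, 24, 16, 24, 22, 20, 0, 38, 22, 32, 22, 36, 26, 24]),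
  (2806, 126, [24, 32, 36, 16, 0, 6, 28, 22, 26, 24, 38, 26, 18, 22, 14, 22, 22, 20, 24, 20, 14, 24, 48, 36, 28, 50, 24, 24]),
  (2809, 126, [24, 24, 28, 24, 20, 18, 28, 50, 36, 14, 22, 26, 6, 48, 20, 22, 38, 0, 24, 14, 24, 16, 22, 26, 36, 22, 32, 24]),
  (2909, 126, [24, 38, 24, 26, 22, 18, 26, 0, 16, 36, 32, 28, 6, 48, 20, 22, 24, 50, 24, 14, 28, 36, 22, 24, 14, 20, 22, 24]),
  (2926, 126, [24, 16, 0, 32, 36, 6, 28, 24, 38, 22, 26, 26, 18, 48, 14, 24, 36, 28, 22, 20, 50, 24, 22, 22, 20, 14, 24, 24]),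
  (2974, 126, [24, 22, 14, 36, 50, 6, 26, 20, 24, 28, 24, 28, 18, 22, 14, 22, 32, 22, 24, 20, 36, 26, 48, 16, 24, 0, 38, 24]),
  (2989, 126, [24, 24, 20, 24, 28, 18, 28, 14, 22, 50, 36, 26, 6, 22, 20, 24, 26, 36, 22, 14, 22, 32, 48, 38, 0, 24, 16, 24]),
  (3419, 126, [24, 38, 24, 26, 18, 22, 26, 0, 16, 6, 28, 32, 36, 48, 50, 24, 22, 20, 36, 28, 14, 24, 24, 22, 14, 20, 24, 22]),
  (3431, 126, [48, 38, 0, 22, 20, 50, 24, 24, 16, 14, 24, 36, 28, 24, 22, 26, 26, 18, 32, 36, 6, 28, 22, 22, 20, 14, 24, 24]),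
  (3479, 126, [22, 24, 14, 24, 20, 36, 26, 20, 22, 14, 22, 32, 22, 24, 28, 24, 28, 18, 36, 50, 6, 26, 48, 16, 24, 0, 38, 24]),
  (3499, 126, [24, 24, 20, 28, 18, 28, 24, 14, 22, 6, 26, 36, 50, 22, 36, 26, 24, 20, 32, 22, 14, 22, 24, 16, 0, 24, 38, 48]),
  (3671, 126, [48, 16, 24, 24, 14, 28, 36, 0, 38, 20, 22, 24, 50, 24, 36, 32, 28, 6, 26, 22, 18, 26, 22, 24, 14, 20, 22, 24]),
  (3691, 126, [24, 16, 0, 28, 6, 36, 32, 24, 38, 18, 26, 26, 22, 48, 28, 36, 24, 14, 24, 50, 20, 22, 24, 24, 20, 14, 22, 22]),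
  (3739, 126, [24, 22, 14, 26, 6, 50, 36, 20, 24, 18, 28, 24, 28, 22, 22, 32, 22, 14, 26, 36, 20, 24, 24, 38, 24, 0, 16, 48]),
  (3751, 126, [22, 22, 20, 22, 14, 22, 32, 14, 24, 20, 24, 26, 36, 24, 50, 36, 26, 6, 24, 28, 18, 28, 48, 38, 0, 24, 16, 24]),
  (4574, 126, [36, 22, 26, 24, 24, 14, 20, 32, 24, 28, 16, 6, 0, 22, 20, 14, 22, 22, 18, 24, 26, 38, 28, 24, 24, 36, 48, 50]),
  (4589, 126, [28, 48, 36, 16, 24, 24, 14, 24, 24, 28, 24, 18, 20, 50, 0, 20, 38, 22, 6, 14, 26, 22, 36, 24, 32, 26, 22, 22]),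
  (4829, 126, [22, 24, 26, 38, 26, 24, 18, 32, 22, 22, 22, 14, 20, 36, 0, 6, 16, 28, 20, 14, 24, 24, 50, 48, 24, 36, 24, 28]),
  (4846, 126, [50, 24, 36, 22, 26, 14, 6, 24, 48, 22, 38, 20, 0, 28, 20, 18, 24, 28, 14, 24, 24, 16, 22, 22, 32, 26, 24, 36]),
  (4982, 126, [24, 24, 38, 26, 26, 18, 22, 16, 48, 36, 24, 28, 14, 0, 6, 36, 28, 32, 50, 20, 24, 22, 14, 24, 22, 24, 22, 20]),
  (4985, 126, [0, 48, 38, 22, 24, 20, 50, 16, 24, 32, 28, 36, 6, 24, 14, 28, 24, 36, 22, 18, 26, 26, 20, 22, 22, 24, 24, 14]),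
  (5045, 126, [14, 22, 24, 24, 26, 20, 36, 22, 24, 36, 26, 50, 6, 20, 14, 22, 22, 32, 28, 18, 24, 28, 24, 48, 16, 38, 24, 0]),
  (5050, 126, [20, 24, 24, 28, 24, 18, 28, 22, 22, 32, 22, 22, 14, 14, 6, 50, 26, 36, 36, 20, 26, 24, 0, 24, 16, 38, 48, 24]),
  (5339, 126, [22, 36, 26, 24, 14, 24, 20, 32, 22, 20, 22, 14, 22, 24, 28, 6, 16, 0, 18, 26, 24, 38, 24, 28, 24, 36, 50, 48]),
  (5351, 126, [48, 28, 36, 16, 24, 24, 14, 24, 50, 0, 38, 20, 22, 24, 28, 18, 24, 20, 6, 26, 14, 22, 24, 36, 32, 26, 22, 22]),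
  (5519, 126, [22, 24, 14, 36, 26, 24, 20, 20, 22, 32, 22, 14, 22, 24, 28, 18, 28, 24, 6, 26, 36, 50, 24, 16, 0, 24, 38, 48]),
  (5555, 126, [14, 22, 24, 36, 20, 26, 24, 22, 24, 6, 50, 26, 36, 20, 32, 22, 22, 14, 28, 24, 18, 28, 0, 24, 16, 38, 48, 24]),
  (5564, 126, [22, 14, 24, 36, 26, 20, 24, 22, 20, 32, 22, 22, 14, 24, 6, 26, 50, 36, 28, 18, 24, 28, 24, 0, 16, 38, 24, 48]),
  (5711, 126, [48, 16, 24, 28, 36, 24, 14, 0, 38, 24, 50, 20, 22, 24, 28, 6, 36, 32, 18, 26, 26, 22, 24, 24, 20, 14, 22, 22]),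
  (5747, 126, [24, 24, 38, 22, 18, 26, 26, 16, 48, 14, 28, 24, 36, 0, 32, 28, 36, 6, 22, 24, 20, 50, 20, 22, 22, 24, 24, 14]),
  (5756, 126, [48, 0, 38, 50, 24, 20, 22, 16, 24, 36, 28, 24, 14, 24, 6, 28, 36, 32, 26, 18, 26, 22, 24, 14, 22, 24, 20, 22]),
  (5915, 126, [14, 36, 20, 22, 24, 26, 24, 6, 50, 22, 24, 26, 36, 0, 32, 28, 24, 16, 22, 24, 38, 48, 20, 22, 14, 18, 28, 24]),
  (5927, 126, [24, 22, 18, 24, 38, 26, 26, 14, 28, 16, 48, 24, 36, 20, 32, 22, 22, 22, 28, 24, 24, 24, 0, 36, 6, 20, 50, 14]),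
  (6104, 126, [22, 36, 26, 14, 24, 20, 24, 32, 22, 22, 20, 22, 14, 24, 6, 28, 0, 16, 26, 18, 38, 24, 24, 50, 36, 24, 28, 48]),
  (6116, 126, [48, 50, 24, 0, 38, 20, 22, 36, 28, 16, 24, 24, 14, 24, 6, 26, 14, 22, 28, 18, 24, 20, 24, 36, 32, 26, 22, 22]),
  (6359, 126, [24, 22, 26, 38, 24, 26, 18, 32, 36, 0, 16, 6, 28, 22, 22, 14, 22, 20, 20, 24, 14, 24, 48, 50, 24, 36, 28, 24]),
  (6379, 126, [24, 50, 36, 22, 14, 26, 6, 24, 28, 20, 24, 18, 28, 48, 22, 20, 38, 0, 14, 24, 24, 16, 22, 22, 32, 26, 36, 24]),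
  (6479, 126, [24, 38, 24, 22, 26, 26, 18, 0, 16, 32, 36, 6, 28, 48, 22, 20, 50, 24, 14, 24, 36, 28, 22, 22, 20, 14, 24, 24]),
  (6515, 126, [0, 48, 38, 50, 20, 24, 22, 16, 24, 6, 36, 28, 32, 24, 36, 24, 28, 14, 26, 26, 18, 22, 14, 24, 22, 24, 22, 20]),
  (6524, 126, [24, 24, 38, 22, 26, 18, 26, 16, 0, 32, 36, 28, 6, 48, 14, 24, 28, 36, 22, 20, 24, 50, 22, 20, 22, 24, 14, 24]),
  (6799, 126, [24, 22, 14, 50, 36, 26, 6, 20, 24, 24, 28, 18, 28, 22, 22, 14, 22, 32, 20, 24, 26, 36, 48, 38, 0, 24, 16, 24]),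
  (6835, 126, [20, 24, 24, 28, 18, 24, 28, 22, 22, 14, 22, 22, 32, 14, 36, 26, 50, 6, 24, 26, 20, 36, 24, 48, 16, 38, 24, 0]),
  (6844, 126, [24, 20, 24, 28, 24, 18, 28, 22, 14, 36, 50, 26, 6, 22, 14, 22, 22, 32, 24, 20, 26, 36, 48, 24, 16, 38, 0, 24]),
  (6935, 126, [0, 50, 20, 48, 38, 24, 22, 6, 36, 16, 24, 28, 32, 14, 36, 26, 24, 22, 24, 26, 24, 22, 24, 28, 14, 18, 22, 20]),
  (6955, 126, [20, 28, 18, 24, 24, 24, 28, 14, 22, 22, 22, 22, 32, 24, 36, 24, 48, 16, 26, 26, 38, 24, 14, 50, 6, 20, 36, 0]),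
  (7124, 126, [24, 22, 26, 24, 38, 18, 26, 32, 36, 16, 0, 28, 6, 22, 14, 22, 20, 22, 24, 20, 24, 14, 48, 28, 36, 24, 50, 24]),
  (7144, 126, [24, 28, 24, 20, 24, 18, 28, 36, 50, 22, 14, 26, 6, 48, 14, 24, 24, 16, 22, 20, 38, 0, 22, 22, 32, 26, 36, 24]),
  (7286, 126, [48, 0, 38, 22, 20, 24, 50, 16, 24, 14, 24, 28, 36, 24, 32, 36, 28, 6, 22, 26, 18, 26, 22, 20, 22, 24, 14, 24]),
  (7289, 126, [24, 24, 38, 26, 18, 26, 22, 16, 0, 6, 28, 36, 32, 48, 36, 28, 24, 14, 50, 24, 20, 22, 24, 14, 22, 24, 20, 22]),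
  (7349, 126, [22, 14, 24, 24, 20, 26, 36, 22, 20, 14, 22, 22, 32, 24, 36, 50, 26, 6, 28, 24, 18, 28, 48, 24, 16, 38, 0, 24]),
  (7354, 126, [24, 20, 24, 28, 18, 24, 28, 22, 14, 6, 26, 50, 36, 22, 32, 22, 22, 14, 36, 26, 20, 24, 24, 0, 16, 38, 24, 48]),
  (7454, 126, [36, 14, 20, 22, 26, 24, 24, 6, 0, 32, 24, 28, 16, 50, 22, 26, 24, 36, 22, 38, 24, 48, 22, 20, 14, 18, 24, 28]),
  (7469, 126, [22, 24, 18, 24, 26, 38, 26, 14, 20, 32, 22, 22, 22, 28, 16, 24, 48, 36, 28, 24, 24, 24, 36, 0, 6, 20, 14, 50]),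
  (7634, 126, [36, 22, 26, 14, 20, 24, 24, 32, 24, 6, 0, 28, 16, 22, 22, 22, 20, 14, 26, 38, 18, 24, 50, 24, 36, 24, 48, 28]),
  (7649, 126, [50, 48, 24, 0, 20, 38, 22, 36, 24, 6, 14, 26, 22, 28, 16, 24, 24, 14, 28, 24, 18, 20, 36, 24, 32, 26, 22, 22]),
  (7709, 126, [50, 0, 20, 48, 24, 38, 22, 6, 14, 36, 24, 26, 22, 36, 16, 28, 24, 32, 24, 24, 26, 22, 28, 24, 14, 18, 20, 22]),
  (7726, 126, [28, 20, 18, 24, 24, 24, 28, 14, 24, 36, 48, 24, 16, 22, 22, 22, 22, 32, 26, 38, 26, 24, 50, 14, 6, 20, 0, 36]),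
  (7889, 126, [22, 24, 26, 24, 18, 38, 26, 32, 22, 14, 20, 22, 22, 36, 16, 28, 0, 6, 24, 24, 20, 14, 28, 48, 36, 24, 24, 50]),
  (7906, 126, [28, 24, 24, 20, 18, 24, 28, 36, 48, 14, 24, 24, 16, 50, 22, 26, 14, 6, 22, 38, 20, 0, 22, 22, 32, 26, 24, 36]),
  (8006, 126, [48, 16, 24, 14, 24, 36, 28, 0, 38, 22, 20, 50, 24, 24, 32, 36, 6, 28, 22, 26, 26, 18, 22, 22, 20, 14, 24, 24]),
  (8009, 126, [24, 38, 24, 18, 26, 26, 22, 0, 16, 28, 6, 36, 32, 48, 24, 50, 20, 22, 28, 36, 24, 14, 24, 24, 20, 14, 22, 22]),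
  (8069, 126, [22, 24, 14, 20, 24, 26, 36, 20, 22, 22, 14, 22, 32, 24, 24, 28, 18, 28, 50, 36, 26, 6, 48, 38, 0, 24, 16, 24]),
  (8074, 126, [24, 22, 14, 6, 26, 36, 50, 20, 24, 28, 18, 28, 24, 22, 32, 22, 14, 22, 36, 26, 24, 20, 24, 16, 0, 24, 38, 48]),
  (8669, 126, [50, 48, 24, 38, 22, 0, 20, 36, 24, 26, 22, 6, 14, 28, 24, 14, 16, 24, 18, 20, 28, 24, 22, 24, 26, 32, 22, 36]),
  (8686, 126, [22, 22, 32, 22, 22, 20, 14, 26, 24, 26, 38, 18, 24, 36, 14, 20, 24, 24, 6, 0, 28, 16, 50, 24, 36, 24, 48, 28]),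
  (8926, 126, [28, 24, 24, 24, 28, 20, 18, 36, 48, 24, 16, 14, 24, 50, 14, 6, 22, 26, 20, 0, 22, 38, 36, 22, 26, 32, 24, 22]),
  (8941, 126, [36, 24, 32, 16, 28, 0, 6, 26, 22, 24, 24, 20, 14, 22, 24, 18, 38, 26, 14, 20, 22, 22, 28, 48, 36, 24, 24, 50]),
  (9077, 126, [24, 48, 16, 24, 36, 14, 28, 38, 24, 26, 26, 22, 18, 0, 20, 50, 22, 24, 36, 6, 32, 28, 14, 22, 24, 22, 24, 20]),
  (9082, 126, [0, 24, 16, 28, 32, 6, 36, 38, 48, 24, 22, 50, 20, 24, 18, 22, 26, 26, 28, 14, 36, 24, 20, 24, 24, 22, 22, 14]),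
  (9142, 126, [14, 24, 22, 26, 36, 6, 50, 24, 22, 26, 24, 36, 20, 20, 18, 28, 28, 24, 22, 14, 32, 22, 24, 24, 38, 16, 48, 0]),
  (9145, 126, [20, 22, 22, 22, 32, 14, 22, 24, 24, 24, 28, 28, 18, 14, 20, 36, 24, 26, 50, 6, 36, 26, 0, 48, 38, 16, 24, 24]),
  (9431, 126, [48, 50, 24, 38, 0, 22, 20, 36, 28, 24, 16, 14, 24, 24, 26, 6, 22, 14, 18, 28, 20, 24, 24, 22, 26, 32, 36, 22]),
  (9451, 126, [22, 22, 32, 22, 20, 22, 14, 26, 36, 14, 24, 20, 24, 24, 26, 18, 38, 24, 6, 28, 0, 16, 24, 50, 36, 24, 28, 48]),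
  (9551, 126, [48, 38, 0, 50, 24, 22, 20, 24, 16, 36, 28, 14, 24, 24, 26, 18, 22, 26, 6, 28, 32, 36, 24, 22, 14, 20, 24, 22]),
  (9587, 126, [24, 48, 16, 28, 14, 36, 24, 38, 24, 18, 22, 26, 26, 0, 24, 22, 50, 20, 28, 32, 6, 36, 20, 24, 24, 22, 22, 14]),
  (9596, 126, [48, 24, 16, 28, 36, 14, 24, 38, 0, 24, 50, 22, 20, 24, 18, 26, 22, 26, 28, 6, 32, 36, 24, 20, 24, 22, 14, 22]),
  (9871, 126, [22, 22, 20, 22, 32, 22, 14, 14, 24, 26, 36, 20, 24, 24, 26, 6, 50, 36, 18, 28, 24, 28, 24, 38, 24, 0, 16, 48]),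
  (9907, 126, [14, 24, 22, 50, 6, 36, 26, 24, 22, 20, 36, 24, 26, 20, 24, 28, 28, 18, 22, 32, 14, 22, 0, 48, 38, 16, 24, 24]),
  (9916, 126, [22, 20, 22, 22, 32, 14, 22, 24, 14, 26, 36, 24, 20, 24, 18, 28, 28, 24, 26, 6, 36, 50, 24, 24, 38, 16, 0, 48]),
  (10007, 126, [24, 28, 14, 48, 16, 36, 24, 18, 22, 38, 24, 26, 26, 20, 24, 28, 24, 24, 22, 32, 22, 22, 0, 50, 20, 6, 36, 14]),
  (10027, 126, [14, 50, 6, 24, 22, 36, 26, 20, 36, 24, 22, 24, 26, 0, 24, 22, 48, 38, 28, 32, 16, 24, 20, 28, 18, 14, 22, 24]),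
  (10196, 126, [48, 28, 36, 24, 16, 14, 24, 24, 50, 38, 0, 22, 20, 24, 18, 28, 20, 24, 26, 6, 22, 14, 24, 22, 26, 32, 36, 22]),
  (10216, 126, [22, 22, 32, 20, 22, 14, 22, 26, 36, 24, 14, 24, 20, 24, 18, 26, 24, 38, 28, 6, 16, 0, 24, 28, 24, 36, 50, 48]),
  (10459, 126, [24, 28, 24, 24, 20, 28, 18, 36, 50, 14, 22, 6, 26, 48, 24, 14, 16, 24, 20, 22, 0, 38, 22, 36, 26, 32, 22, 24]),
  (10471, 126, [24, 36, 32, 16, 0, 28, 6, 26, 22, 24, 38, 18, 26, 22, 24, 20, 24, 14, 14, 22, 20, 22, 48, 28, 36, 24, 50, 24]),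
  (10639, 126, [24, 24, 20, 28, 24, 28, 18, 14, 22, 36, 50, 6, 26, 22, 24, 20, 36, 26, 14, 22, 32, 22, 48, 16, 24, 0, 38, 24]),
  (10675, 126, [20, 22, 22, 22, 14, 32, 22, 24, 24, 18, 28, 28, 24, 14, 26, 24, 36, 20, 26, 36, 6, 50, 24, 24, 38, 16, 48, 0]),
  (10684, 126, [24, 14, 22, 50, 36, 6, 26, 24, 20, 24, 28, 28, 18, 22, 20, 24, 36, 26, 22, 14, 32, 22, 48, 0, 38, 16, 24, 24]),
  (10831, 126, [24, 16, 0, 36, 32, 28, 6, 24, 38, 26, 22, 18, 26, 48, 24, 14, 28, 36, 20, 22, 24, 50, 22, 24, 14, 20, 22, 24]),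
  (10867, 126, [0, 24, 16, 36, 6, 32, 28, 38, 48, 20, 50, 22, 24, 24, 26, 26, 22, 18, 24, 36, 14, 28, 14, 22, 24, 22, 24, 20]),
  (10876, 126, [24, 0, 16, 36, 32, 6, 28, 38, 24, 26, 22, 26, 18, 48, 20, 22, 50, 24, 24, 14, 36, 28, 22, 14, 24, 22, 20, 24]),
  (11035, 126, [20, 22, 14, 22, 22, 32, 22, 18, 28, 24, 24, 28, 24, 24, 26, 26, 24, 38, 24, 36, 16, 48, 14, 36, 20, 6, 50, 0]),
  (11047, 126, [0, 36, 6, 24, 16, 32, 28, 20, 50, 38, 48, 22, 24, 14, 26, 24, 22, 24, 26, 36, 22, 24, 24, 22, 18, 14, 28, 20]),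
  (11224, 126, [24, 50, 36, 14, 22, 6, 26, 24, 28, 24, 20, 28, 18, 48, 20, 22, 0, 38, 24, 14, 16, 24, 22, 36, 26, 32, 22, 24]),
  (11236, 126, [24, 36, 32, 0, 16, 6, 28, 26, 22, 38, 24, 26, 18, 22, 20, 24, 14, 24, 22, 14, 22, 20, 48, 50, 24, 36, 28, 24]),
  (11381, 126, [48, 24, 16, 24, 14, 36, 28, 38, 0, 20, 22, 50, 24, 24, 26, 22, 26, 18, 36, 32, 6, 28, 22, 14, 24, 22, 20, 24]),
  (11386, 126, [24, 0, 16, 28, 6, 32, 36, 38, 24, 18, 26, 22, 26, 48, 24, 50, 22, 20, 28, 36, 14, 24, 24, 20, 24, 22, 14, 22]),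
  (11446, 126, [22, 20, 22, 22, 14, 32, 22, 24, 14, 20, 24, 36, 26, 24, 24, 28, 28, 18, 50, 36, 6, 26, 48, 0, 38, 16, 24, 24]),
  (11449, 126, [24, 14, 22, 26, 6, 36, 50, 24, 20, 18, 28, 28, 24, 22, 26, 36, 24, 20, 22, 32, 14, 22, 24, 24, 38, 16, 0, 48]),
  (11549, 126, [28, 24, 14, 48, 36, 16, 24, 18, 20, 24, 24, 28, 24, 22, 38, 26, 24, 26, 22, 22, 32, 22, 50, 0, 20, 6, 14, 36]),
  (11566, 126, [50, 14, 6, 24, 36, 22, 26, 20, 0, 24, 48, 22, 38, 36, 24, 24, 22, 26, 28, 16, 32, 24, 28, 20, 18, 14, 24, 22]),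
  (11729, 126, [28, 48, 36, 24, 14, 16, 24, 24, 24, 18, 20, 28, 24, 50, 38, 22, 0, 20, 26, 22, 6, 14, 22, 24, 26, 32, 22, 36]),
  (11746, 126, [22, 22, 32, 20, 14, 22, 22, 26, 24, 18, 24, 26, 38, 36, 24, 24, 14, 20, 28, 16, 6, 0, 28, 24, 24, 36, 48, 50]),
  (11806, 126, [22, 20, 14, 22, 32, 22, 22, 18, 24, 26, 24, 26, 38, 28, 24, 28, 24, 24, 24, 16, 36, 48, 36, 14, 20, 6, 0, 50]),
  (11821, 126, [36, 0, 6, 24, 32, 16, 28, 20, 14, 26, 22, 24, 24, 50, 38, 22, 48, 24, 26, 22, 36, 24, 22, 24, 18, 14, 20, 28]),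
  (11986, 126, [50, 24, 36, 14, 6, 22, 26, 24, 48, 20, 0, 22, 38, 28, 24, 28, 20, 18, 24, 16, 14, 24, 36, 22, 26, 32, 24, 22]),
  (12001, 126, [36, 24, 32, 0, 6, 16, 28, 26, 22, 20, 14, 24, 24, 22, 38, 26, 24, 18, 22, 22, 14, 20, 50, 48, 24, 36, 24, 28]),
  (12101, 126, [48, 38, 0, 20, 22, 24, 50, 24, 16, 24, 14, 28, 36, 24, 26, 22, 18, 26, 36, 32, 28, 6, 22, 24, 14, 20, 22, 24]),
  (12106, 126, [24, 16, 0, 6, 28, 32, 36, 24, 38, 26, 18, 22, 26, 48, 36, 28, 14, 24, 50, 24, 22, 20, 24, 22, 14, 20, 24, 22]),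
  (12166, 126, [22, 22, 20, 14, 22, 32, 22, 14, 24, 24, 20, 36, 26, 24, 36, 50, 6, 26, 28, 24, 28, 18, 48, 16, 24, 0, 38, 24]),
  (12169, 126, [24, 24, 20, 18, 28, 24, 28, 14, 22, 26, 6, 50, 36, 22, 26, 36, 20, 24, 22, 32, 22, 14, 24, 38, 24, 0, 16, 48]),
  (12635, 126, [0, 48, 38, 24, 22, 50, 20, 16, 24, 28, 32, 6, 36, 24, 28, 14, 36, 24, 18, 22, 26, 26, 20, 24, 24, 22, 22, 14]),
  (12647, 126, [24, 48, 16, 36, 24, 28, 14, 38, 24, 26, 26, 18, 22, 0, 50, 20, 24, 22, 6, 36, 28, 32, 14, 24, 22, 24, 22, 20]),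
  (12695, 126, [14, 22, 24, 26, 24, 36, 20, 22, 24, 26, 36, 6, 50, 20, 22, 14, 32, 22, 18, 28, 28, 24, 24, 24, 38, 16, 48, 0]),
  (12715, 126, [20, 22, 22, 32, 22, 22, 14, 24, 24, 28, 24, 18, 28, 14, 36, 20, 26, 24, 6, 50, 26, 36, 0, 24, 16, 38, 48, 24]),
  (12887, 126, [24, 24, 38, 26, 26, 22, 18, 16, 48, 24, 36, 14, 28, 0, 36, 6, 32, 28, 20, 50, 22, 24, 14, 22, 24, 22, 24, 20]),
  (12907, 126, [0, 24, 16, 32, 28, 36, 6, 38, 48, 22, 24, 20, 50, 24, 22, 18, 26, 26, 14, 28, 24, 36, 20, 22, 22, 24, 24, 14]),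
  (12955, 126, [20, 24, 24, 24, 28, 28, 18, 22, 22, 22, 32, 14, 22, 14, 50, 6, 36, 26, 20, 36, 24, 26, 0, 48, 38, 16, 24, 24]),
  (12967, 126, [14, 24, 22, 36, 26, 50, 6, 24, 22, 24, 26, 20, 36, 20, 28, 18, 24, 28, 14, 22, 22, 32, 24, 48, 16, 38, 24, 0]),
  (13406, 126, [48, 0, 38, 24, 50, 22, 20, 16, 24, 28, 36, 14, 24, 24, 28, 6, 32, 36, 18, 26, 22, 26, 24, 20, 24, 22, 14, 22]),
  (13421, 126, [48, 24, 16, 36, 28, 24, 14, 38, 0, 50, 24, 20, 22, 24, 26, 18, 26, 22, 6, 28, 36, 32, 24, 14, 22, 24, 20, 22]),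
  (13469, 126, [22, 14, 24, 26, 36, 24, 20, 22, 20, 22, 32, 14, 22, 24, 26, 6, 36, 50, 18, 28, 28, 24, 24, 24, 38, 16, 0, 48]),
  (13486, 126, [22, 20, 22, 32, 22, 22, 14, 24, 14, 36, 26, 20, 24, 24, 28, 18, 24, 28, 6, 26, 50, 36, 24, 0, 16, 38, 24, 48]),
  (13622, 126, [24, 18, 22, 24, 38, 26, 26, 28, 14, 16, 48, 36, 24, 20, 28, 24, 24, 24, 32, 22, 22, 22, 0, 6, 36, 50, 20, 14]),
  (13625, 126, [14, 20, 36, 22, 24, 24, 26, 50, 6, 22, 24, 36, 26, 0, 22, 24, 48, 38, 32, 28, 16, 24, 20, 14, 22, 28, 18, 24]),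
  (13766, 126, [48, 24, 50, 0, 38, 22, 20, 28, 36, 16, 24, 14, 24, 24, 28, 18, 20, 24, 6, 26, 22, 14, 24, 32, 36, 22, 26, 22]),
  (13769, 126, [22, 26, 36, 14, 24, 24, 20, 22, 32, 22, 20, 14, 22, 24, 26, 18, 24, 38, 6, 28, 16, 0, 24, 36, 50, 28, 24, 48]),
  (13877, 126, [24, 14, 28, 48, 16, 24, 36, 22, 18, 38, 24, 26, 26, 20, 22, 32, 22, 22, 24, 28, 24, 24, 0, 20, 50, 36, 6, 14]),
  (13882, 126, [14, 6, 50, 24, 22, 26, 36, 36, 20, 24, 22, 26, 24, 0, 28, 32, 24, 16, 24, 22, 38, 48, 20, 18, 28, 22, 14, 24]),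
  (14021, 126, [48, 36, 28, 24, 16, 24, 14, 50, 24, 38, 0, 20, 22, 24, 26, 6, 14, 22, 18, 28, 24, 20, 24, 26, 22, 36, 32, 22]),
  (14026, 126, [22, 32, 22, 20, 22, 22, 14, 36, 26, 24, 14, 20, 24, 24, 28, 6, 0, 16, 18, 26, 38, 24, 24, 24, 28, 50, 36, 48]),
  (14162, 126, [24, 24, 38, 18, 22, 26, 26, 16, 48, 28, 14, 36, 24, 0, 28, 32, 6, 36, 24, 22, 50, 20, 20, 24, 24, 22, 22, 14]),
  (14177, 126, [24, 48, 16, 14, 28, 24, 36, 38, 24, 22, 18, 26, 26, 0, 22, 24, 20, 50, 32, 28, 36, 6, 20, 22, 22, 24, 24, 14]),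
  (14225, 126, [14, 22, 24, 20, 36, 24, 26, 22, 24, 50, 6, 36, 26, 20, 22, 32, 14, 22, 24, 28, 28, 18, 0, 48, 38, 16, 24, 24]),
  (14242, 126, [14, 24, 22, 6, 50, 26, 36, 24, 22, 36, 20, 26, 24, 20, 28, 24, 18, 28, 32, 22, 22, 14, 0, 24, 16, 38, 48, 24]),
  (14429, 126, [24, 24, 38, 26, 22, 26, 18, 16, 0, 36, 32, 6, 28, 48, 24, 14, 36, 28, 20, 22, 50, 24, 22, 14, 24, 22, 20, 24]),
  (14446, 126, [24, 0, 16, 32, 36, 28, 6, 38, 24, 22, 26, 18, 26, 48, 22, 20, 24, 50, 14, 24, 28, 36, 22, 20, 22, 24, 14, 24]),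
  (14494, 126, [24, 20, 24, 24, 28, 28, 18, 22, 14, 50, 36, 6, 26, 22, 22, 14, 32, 22, 20, 24, 36, 26, 48, 0, 38, 16, 24, 24]),
  (14509, 126, [24, 14, 22, 36, 50, 26, 6, 24, 20, 28, 24, 18, 28, 22, 24, 20, 26, 36, 14, 22, 22, 32, 48, 24, 16, 38, 0, 24]),
  (14645, 126, [0, 20, 50, 48, 38, 22, 24, 36, 6, 16, 24, 32, 28, 14, 24, 26, 22, 24, 36, 26, 22, 24, 24, 14, 28, 22, 18, 20]),
  (14650, 126, [20, 18, 28, 24, 24, 28, 24, 22, 14, 22, 22, 32, 22, 24, 26, 26, 24, 38, 36, 24, 16, 48, 14, 6, 50, 36, 20, 0]),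
  (14789, 126, [24, 26, 22, 24, 38, 26, 18, 36, 32, 16, 0, 6, 28, 22, 24, 20, 14, 24, 14, 22, 22, 20, 48, 36, 28, 50, 24, 24]),
  (14794, 126, [24, 24, 28, 20, 24, 28, 18, 50, 36, 22, 14, 6, 26, 48, 22, 20, 0, 38, 14, 24, 16, 24, 22, 32, 22, 36, 26, 24]),
  (14902, 126, [0, 6, 36, 24, 16, 28, 32, 50, 20, 38, 48, 24, 22, 14, 26, 36, 24, 22, 26, 24, 24, 22, 24, 18, 22, 28, 14, 20]),
  (14905, 126, [20, 14, 22, 22, 22, 22, 32, 28, 18, 24, 24, 24, 28, 24, 24, 36, 48, 16, 26, 26, 38, 24, 14, 20, 36, 50, 6, 0]),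
  (15046, 126, [24, 32, 36, 0, 16, 28, 6, 22, 26, 38, 24, 18, 26, 22, 22, 14, 20, 22, 20, 24, 24, 14, 48, 24, 50, 28, 36, 24]),
  (15049, 126, [24, 36, 50, 14, 22, 26, 6, 28, 24, 24, 20, 18, 28, 48, 24, 14, 24, 16, 20, 22, 38, 0, 22, 26, 36, 22, 32, 24]),
  (15185, 126, [0, 48, 38, 20, 50, 22, 24, 16, 24, 36, 6, 32, 28, 24, 24, 36, 14, 28, 26, 26, 22, 18, 14, 22, 24, 22, 24, 20]),
  (15202, 126, [0, 24, 16, 6, 36, 28, 32, 38, 48, 50, 20, 24, 22, 24, 26, 26, 18, 22, 36, 24, 28, 14, 14, 24, 22, 24, 22, 20]),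
  (15250, 126, [20, 24, 24, 18, 28, 28, 24, 22, 22, 22, 14, 32, 22, 14, 26, 36, 6, 50, 26, 24, 36, 20, 24, 24, 38, 16, 48, 0]),
  (15265, 126, [20, 22, 22, 14, 22, 22, 32, 24, 24, 28, 18, 24, 28, 14, 24, 26, 20, 36, 36, 26, 50, 6, 24, 48, 16, 38, 24, 0]),
  (15704, 126, [24, 24, 38, 18, 26, 22, 26, 16, 0, 28, 6, 32, 36, 48, 28, 36, 14, 24, 24, 50, 22, 20, 24, 20, 24, 22, 14, 22]),
  (15716, 126, [48, 24, 16, 14, 24, 28, 36, 38, 0, 22, 20, 24, 50, 24, 22, 26, 18, 26, 32, 36, 28, 6, 22, 20, 22, 24, 14, 24]),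
  (15764, 126, [22, 14, 24, 20, 24, 36, 26, 22, 20, 22, 14, 32, 22, 24, 50, 36, 6, 26, 24, 28, 28, 18, 48, 0, 38, 16, 24, 24]),
  (15784, 126, [24, 14, 22, 6, 26, 50, 36, 24, 20, 28, 18, 24, 28, 22, 36, 26, 20, 24, 32, 22, 22, 14, 24, 0, 16, 38, 24, 48]),
  (15956, 126, [48, 0, 38, 20, 22, 50, 24, 16, 24, 24, 14, 36, 28, 24, 36, 32, 6, 28, 26, 22, 26, 18, 22, 14, 24, 22, 20, 24]),
  (15976, 126, [24, 0, 16, 6, 28, 36, 32, 38, 24, 26, 18, 26, 22, 48, 50, 24, 20, 22, 36, 28, 24, 14, 24, 14, 22, 24, 20, 22]),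
  (16024, 126, [24, 20, 24, 18, 28, 28, 24, 22, 14, 26, 6, 36, 50, 22, 22, 32, 14, 22, 26, 36, 24, 20, 24, 24, 38, 16, 0, 48]),
  (16036, 126, [22, 20, 22, 14, 22, 22, 32, 24, 14, 24, 20, 26, 36, 24, 28, 24, 18, 28, 36, 50, 26, 6, 48, 24, 16, 38, 0, 24])]

def others : List ℕ := [23, 27, 29, 30, 39, 43, 45, 46, 53, 54, 57, 58, 71, 75, 77, 78, 83, 86, 89, 92, 99, 101, 106, 108, 113, 114, 116, 120, 135, 139, 141, 142, 147, 149, 154, 156, 163, 166, 169, 172, 177, 178, 180, 184, 197, 198, 201, 202, 209, 210, 212, 216, 225, 226, 228, 232]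

/-- Boolean test of a weight certificate: all non-planes have weight more than `K`, all planes
outside the coded set have weight exactly `K`. -/
def okCert (q : ℕ × ℕ × List ℕ) : Bool :=
  others.all (fun m => Nat.blt q.2.1 (gw (pairs.zip q.2.2) m.testBit)) &&
    (List.range 14).all (fun i => q.1.testBit i || gw (pairs.zip q.2.2) (pl i).testBit == q.2.1)

theorem quad_cases : ∀ m < 256, pc8 m = 4 → m ∈ planes ∨ m ∈ others := by decide +kernel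

theorem defining_of_cert {q : ℕ × ℕ × List ℕ} (hq : okCert q = true) :
    IsDefiningSet 2 8 4 3 B0 (sub q.1) := by
  refine ⟨sub_subset_B0 _, ?_⟩
  intro B' hB' hsub
  unfold okCert at hq
  rw [Bool.and_eq_true, List.all_eq_true, List.all_eq_true] at hq
  obtain ⟨hoth, hpl⟩ := hq
  set K := q.2.1 with hK
  set g : Finset (Fin 8) → ℕ := fun b => gw (pairs.zip q.2.2) (ind b) with hg
  have hsum : ∑ b ∈ B', g b = ∑ b ∈ B0, g b := by
    rw [hg]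
    simp only
    rw [sum_gw hB' _ (zip_ok _), sum_gw B0_design _ (zip_ok _)]
  have hcard := card_eq hB' B0_design
  -- planes outside the coded set have weight `K`
  have hB0w : ∀ b ∈ B0 \ sub q.1, g b = K := by
    intro b hb
    rw [Finset.mem_sdiff] at hb
    obtain ⟨i, -, rfl⟩ := Finset.mem_image.1 hb.1
    have h1 : q.1.testBit i = false := by
      rw [← Bool.not_eq_true]
      exact fun h => hb.2 (mem_sub.2 h)
    have h2 := hpl i.val (List.mem_range.2 i.2)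
    rw [h1, Bool.false_or, beq_iff_eq] at h2
    rw [hg]
    simp only
    rw [blk, ind_toF (pl_lt i)]
    exact h2
  -- blocks of `B'` outside the coded set have weight at least `K`, with equality only for planes
  have hB'w : ∀ b ∈ B' \ sub q.1, K ≤ g b ∧ (g b = K → b ∈ B0) := by
    intro b hb
    rw [Finset.mem_sdiff] at hb
    by_cases hbB : b ∈ B0
    · exact ⟨(hB0w b (Finset.mem_sdiff.2 ⟨hbB, hb.2⟩)).ge, fun _ => hbB⟩
    · obtain ⟨m, hm, rfl⟩ := toF_surj b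
      have h3 := hB'.1 _ hb.1
      rw [card_toF8] at h3
      have hcase := quad_cases m (by simpa using hm) h3
      rcases hcase with h4 | h4
      · exact absurd (by rw [B0_eq, mem_mk]; exact ⟨m, h4, rfl⟩) hbB
      · have h5 := hoth m h4
        simp only [Nat.blt_eq] at h5
        rw [hg]
        simp only
        rw [ind_toF hm]
        exact ⟨h5.le, fun h => absurd h h5.ne'⟩
  have hsub0 : sub q.1 ⊆ B0 := sub_subset_B0 _
  have hs1 : ∑ b ∈ B' \ sub q.1, g b = ∑ b ∈ B0 \ sub q.1, g b := by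
    have e1 := Finset.sum_sdiff (f := g) hsub
    have e2 := Finset.sum_sdiff (f := g) hsub0
    omega
  have hc1 : (B' \ sub q.1).card = (B0 \ sub q.1).card := by
    rw [Finset.card_sdiff_of_subset hsub, Finset.card_sdiff_of_subset hsub0, hcard]
  have hs2 : ∑ b ∈ B0 \ sub q.1, g b = ∑ b ∈ B' \ sub q.1, K := by
    rw [Finset.sum_congr rfl hB0w, Finset.sum_const, Finset.sum_const, hc1]
  have hs3 : ∑ b ∈ B' \ sub q.1, K = ∑ b ∈ B' \ sub q.1, g b := by rw [hs1, hs2]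
  have hall := (Finset.sum_eq_sum_iff_of_le (fun b hb => (hB'w b hb).1)).1 hs3
  apply Finset.eq_of_subset_of_card_le _ hcard.ge
  intro b hb
  by_cases hbs : b ∈ sub q.1
  · exact hsub0 hbs
  · have hb2 : b ∈ B' \ sub q.1 := Finset.mem_sdiff.2 ⟨hb, hbs⟩
    exact (hB'w b hb2).2 (hall b hb2).symm

/-- Test of a Boolean predicate below `n`. -/
def allBelow : ℕ → (ℕ → Bool) → Bool
  | 0, _ => true
  | n + 1, p => p n && allBelow n p

theorem allBelow_spec {n : ℕ} {p : ℕ → Bool} (h : allBelow n p = true) :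
    ∀ m < n, p m = true := by
  induction n with
  | zero => intro m hm; exact absurd hm (Nat.not_lt_zero m)
  | succ n ih =>
    rw [allBelow, Bool.and_eq_true] at h
    intro m hm
    rcases Nat.lt_succ_iff_lt_or_eq.1 hm with h1 | h1
    · exact ih h.2 m h1
    · rw [h1]; exact h.1

/-- Every coded set misses a trade or contains a certified defining set. -/
def okCode (c : ℕ) : Bool :=
  trades.any (fun q => c &&& q.1 == 0) || certs.any (fun q => q.1 &&& c == q.1)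

/-- Minimality test. -/
def okMin (c : ℕ) : Bool :=
  (List.range 14).all (fun i => !c.testBit i ||
    trades.any (fun q => (c ^^^ 2 ^ i) &&& q.1 == 0))

theorem trades_ok : trades.all okTrade = true := by decide +kernel

theorem certs_ok : certs.all okCert = true := by decide +kernel

theorem certs_size : certs.all (fun q => pc14 q.1 == 6 || pc14 q.1 == 8) = true := by
  decide +kernel

theorem codes_ok :
    allBelow 128 (fun a => allBelow 128 (fun b => okCode (128 * a + b))) = true := by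
  decide +kernel

theorem codes_ok' (c : ℕ) (hc : c < 2 ^ 14) : okCode c = true := by
  have h1 : c / 128 < 128 := by
    rw [Nat.div_lt_iff_lt_mul (by norm_num)]
    simpa using hc
  have h2 := allBelow_spec (allBelow_spec codes_ok (c / 128) h1) (c % 128)
    (Nat.mod_lt _ (by norm_num))
  rwa [Nat.div_add_mod] at h2

theorem minimal_of {q : ℕ × ℕ × List ℕ} (hq : okCert q = true) (hm : okMin q.1 = true) :
    IsMinimalDefiningSet 2 8 4 3 B0 (sub q.1) := by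
  refine ⟨defining_of_cert hq, ?_⟩
  intro S' hS' hdef
  obtain ⟨hsub, hnsub⟩ := Finset.ssubset_iff_subset_ne.1 hS'
  obtain ⟨c, hc, rfl⟩ := exists_code hdef.1
  obtain ⟨b, hb, hb'⟩ := Finset.exists_of_ssubset hS'
  obtain ⟨i, hi, rfl⟩ := Finset.mem_image.1 hb
  have h1 := mem_toF.1 hi
  unfold okMin at hm
  rw [List.all_eq_true] at hm
  have h2 := hm i.val (List.mem_range.2 i.2)
  rw [h1, Bool.not_true, Bool.false_or, List.any_eq_true] at h2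
  obtain ⟨t, ht, h3⟩ := h2
  rw [beq_iff_eq] at h3
  have htr : okTrade t = true := by
    have := trades_ok
    rw [List.all_eq_true] at this
    exact this t ht
  refine not_defining htr ?_ hdef
  apply Nat.eq_of_testBit_eq
  intro j
  rw [Nat.zero_testBit, Nat.testBit_and]
  by_cases hcj : c.testBit j = true
  · have hj : j < 14 := by
      by_contra hj
      have hle : 2 ^ 14 ≤ 2 ^ j := Nat.pow_le_pow_right (by norm_num) (not_lt.1 hj)
      rw [Nat.testBit_lt_two_pow (lt_of_lt_of_le hc hle)] at hcj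
      exact absurd hcj (by decide)
    have hbj : blk ⟨j, hj⟩ ∈ sub c := mem_sub.2 hcj
    have hqj : q.1.testBit j = true := by
      have := mem_sub.1 (hsub hbj)
      exact this
    have hne : i.val ≠ j := by
      intro h
      apply hb'
      rw [mem_sub, h]
      exact hcj
    have h4 : ((q.1 ^^^ 2 ^ i.val) &&& t.1).testBit j = false := by
      rw [h3]; exact Nat.zero_testBit _
    rw [Nat.testBit_and, Nat.testBit_xor, hqj, Nat.testBit_two_pow] at h4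
    simp only [hne, decide_false, Bool.xor_false, Bool.true_and] at h4
    rw [h4, Bool.and_false]
  · rw [Bool.not_eq_true] at hcj
    rw [hcj, Bool.false_and]

theorem spectrum_B0 : spectrum 2 8 4 3 B0 = {6, 8} := by
  ext n
  rw [Set.mem_insert_iff, Set.mem_singleton_iff]
  constructor
  · rintro ⟨S, hS, rfl⟩
    obtain ⟨c, hc, rfl⟩ := exists_code hS.1.1
    have h1 := codes_ok' c hc
    unfold okCode at h1
    rw [Bool.or_eq_true, List.any_eq_true, List.any_eq_true] at h1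
    rcases h1 with ⟨t, ht, h2⟩ | ⟨q, hq, h2⟩
    · rw [beq_iff_eq] at h2
      have htr : okTrade t = true := by
        have := trades_ok
        rw [List.all_eq_true] at this
        exact this t ht
      exact absurd hS.1 (not_defining htr h2)
    · rw [beq_iff_eq] at h2
      have hok : okCert q = true := by
        have := certs_ok
        rw [List.all_eq_true] at this
        exact this q hq
      have hsz := certs_size
      rw [List.all_eq_true] at hsz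
      have hsz2 := hsz q hq
      rw [Bool.or_eq_true, beq_iff_eq, beq_iff_eq] at hsz2
      have hsub := sub_subset_sub h2
      have heq : sub q.1 = sub c := by
        by_contra hne
        exact hS.2 _ (Finset.ssubset_iff_subset_ne.2 ⟨hsub, hne⟩) (defining_of_cert hok)
      rw [← heq, card_sub]
      exact hsz2
  · have hex : ∀ k : ℕ, certs.any (fun q => okMin q.1 && pc14 q.1 == k) = true →
        k ∈ spectrum 2 8 4 3 B0 := by
      intro k hk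
      rw [List.any_eq_true] at hk
      obtain ⟨q, hq, hk⟩ := hk
      rw [Bool.and_eq_true, beq_iff_eq] at hk
      have hok : okCert q = true := by
        have := certs_ok
        rw [List.all_eq_true] at this
        exact this q hq
      exact ⟨sub q.1, minimal_of hok hk.1, by rw [card_sub, hk.2]⟩
    rintro (rfl | rfl)
    · exact hex 6 (by decide +kernel)
    · exact hex 8 (by decide +kernel)

/-- The `2`-`(8,4,3)` design formed by the fourteen planes of `AG(3,2)` has minimal defining sets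
of sizes exactly `6` and `8`; in particular its spectrum has a hole. -/
theorem result : ∃ B : Finset (Finset (Fin 8)), IsDesign 2 8 4 3 B ∧
    spectrum 2 8 4 3 B = {6, 8} ∧ HasHole (spectrum 2 8 4 3 B) := by
  refine ⟨B0, B0_design, spectrum_B0, ?_⟩
  rw [spectrum_B0]
  exact ⟨6, 7, 8, by simp, by simp, by norm_num, by norm_num, by simp⟩

end Pool.Agent.Results.MP_13ec72_co.SpectrumHole
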